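import Pool.Agent.Q198.MI2.T3

set_option autoImplicit false
set_option linter.unusedSectionVars false

/-!
# Project MI2: job TOR
-/

namespace Pool.Agent.Q198.MI2

open Finset Polynomial Q21.MI Q12.MI2

universe u v w w'

/-! ### additive functions on `ι₁ → ZMod 2` -/

section Add

variable {K : Type u} [Field K] [CharP K 2] {ι₁ : Type} [Fintype ι₁] [DecidableEq ι₁]

lemma cast_cases (x : ZMod 2) : (x = 0 ∧ ZMod.castHom (dvd_refl 2) K x = 0) ∨
    (x = 1 ∧ ZMod.castHom (dvd_refl 2) K x = 1) := by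
  rcases zmod2 x with h | h
  · left; subst h; exact ⟨rfl, map_zero _⟩
  · right; subst h; exact ⟨rfl, map_one _⟩

lemma add_fun_eq (u : (ι₁ → ZMod 2) →+ K) (x : ι₁ → ZMod 2) :
    u x = ∑ i, u (Pi.single i 1) * ZMod.castHom (dvd_refl 2) K (x i) := by
  conv_lhs => rw [← Finset.univ_sum_single x]
  rw [map_sum]
  refine Finset.sum_congr rfl fun i _ => ?_
  rcases cast_cases (K := K) (x i) with ⟨h1, h2⟩ | ⟨h1, h2⟩
  · rw [h2, h1, mul_zero, Pi.single_zero, map_zero]
  · rw [h2, h1, mul_one]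

end Add

section Pol

variable {ι κ : Type} [Fintype ι] (b : ι → ι → κ → ℤ)

lemma bil_add_left {R : Type*} [CommRing R] (x x' y : ι → R) :
    bil b (x + x') y = bil b x y + bil b x' y := by
  funext k
  simp only [bil, Pi.add_apply, add_mul, Finset.sum_add_distrib]

lemma bil_add_right {R : Type*} [CommRing R] (x y y' : ι → R) :
    bil b x (y + y') = bil b x y + bil b x y' := by
  funext k
  simp only [bil, Pi.add_apply, mul_add, add_mul, Finset.sum_add_distrib]

/-- the polar form -/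
def pol (x y : ι → ZMod 2) : κ → ZMod 2 := bil b x y + bil b y x

lemma pol_add_left (x x' y : ι → ZMod 2) : pol b (x + x') y = pol b x y + pol b x' y := by
  unfold pol
  rw [bil_add_left, bil_add_right]
  abel

lemma pol_add_right (x y y' : ι → ZMod 2) : pol b x (y + y') = pol b x y + pol b x y' := by
  unfold pol
  rw [bil_add_left, bil_add_right]
  abel

lemma pol_comm (x y : ι → ZMod 2) : pol b x y = pol b y x := by
  unfold pol
  rw [add_comm]

lemma qd_add (x y : ι → ZMod 2) : qd b (x + y) = qd b x + qd b y + pol b x y := by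
  unfold qd pol
  rw [bil_add_left, bil_add_right, bil_add_right]
  abel

lemma fun_add_self {ι' : Type*} (x : ι' → ZMod 2) : x + x = 0 := by
  funext i
  exact CharTwo.add_self_eq_zero _

end Pol

section Grp

variable {G : Type w} [Group G] {ι₁ ι₂ κ : Type} [Fintype ι₁] [Fintype ι₂] (c : Coord G ι₁ ι₂ κ)

lemma psi_comm (g h : G) : c.ψ (g * h) + c.ψ (h * g) = pol c.b (c.ξ g) (c.ξ h) := by
  rw [c.ψ_mul, c.ψ_mul]
  unfold pol
  have h1 := fun_add_self (c.ψ g)
  have h2 := fun_add_self (c.ψ h)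
  linear_combination h1 + h2

lemma pol_tt (k₀ g : G) : pol c.b (c.ξ k₀) (c.ξ g) = c.ψ (tt k₀ g) := by
  rw [← psi_comm]
  have e : k₀ * g = tt k₀ g * (g * k₀) := by
    have hc := Subgroup.mem_center_iff.1 (tt_center c k₀ g) (g * k₀)
    rw [← hc]
    unfold tt
    group
  rw [e, psi_mul c (xi_tt c k₀ g)]
  have h2 := fun_add_self (c.ψ (g * k₀))
  linear_combination h2

lemma xi_surj (x : ι₁ ⊕ ι₂ → ZMod 2) : ∃ g, c.ξ g = x := by
  obtain ⟨g, hg⟩ := c.bij.2 (x, 0)
  exact ⟨g, congrArg Prod.fst hg⟩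

lemma x1_surj (x : ι₁ → ZMod 2) : ∃ g, x1 c g = x := by
  obtain ⟨g, hg⟩ := xi_surj c (Sum.elim x 0)
  refine ⟨g, ?_⟩
  funext i
  simp only [x1, hg, Sum.elim_inl]

lemma eq_of_psi {g h : G} (h1 : c.ξ g = c.ξ h) (h2 : c.ψ g = c.ψ h) : g = h := by
  apply c.bij.1
  simp only [h1, h2]

lemma pol_zero {x : ι₁ ⊕ ι₂ → ZMod 2} (hx : ∀ i, x (Sum.inl i) = 0) (y : ι₁ ⊕ ι₂ → ZMod 2) :
    pol c.b x y = 0 := by
  obtain ⟨g, rfl⟩ := xi_surj c x
  obtain ⟨h, rfl⟩ := xi_surj c y
  have hg : g ∈ Subgroup.center G := (c.center g).2 hx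
  rw [← psi_comm, ← Subgroup.mem_center_iff.1 hg h]
  exact fun_add_self _

/-- the extension by zero -/
def ext0 (ι₂ : Type) (x : ι₁ → ZMod 2) : ι₁ ⊕ ι₂ → ZMod 2 := Sum.elim x 0

lemma ext0_add (x y : ι₁ → ZMod 2) : ext0 ι₂ (x + y) = ext0 ι₂ x + ext0 ι₂ y := by
  funext i
  rcases i with i | i
  · rfl
  · change (0 : ZMod 2) = 0 + 0
    rw [add_zero]

/-- the restriction -/
def res (x : ι₁ ⊕ ι₂ → ZMod 2) : ι₁ → ZMod 2 := fun i => x (Sum.inl i)

lemma pol_res_left (x y : ι₁ ⊕ ι₂ → ZMod 2) : pol c.b (ext0 ι₂ (res x)) y = pol c.b x y := by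
  have h := pol_zero c (x := ext0 ι₂ (res x) + x) (fun i => CharTwo.add_self_eq_zero _) y
  rw [pol_add_left] at h
  have h2 := fun_add_self (pol c.b x y)
  linear_combination h - h2

lemma pol_res (x y : ι₁ ⊕ ι₂ → ZMod 2) :
    pol c.b (ext0 ι₂ (res x)) (ext0 ι₂ (res y)) = pol c.b x y := by
  rw [pol_res_left, pol_comm, pol_res_left, pol_comm]

/-- the bilinear form of the torus data -/
def bet : (ι₁ → ZMod 2) →+ (ι₁ → ZMod 2) →+ (κ → ZMod 2) :=
  AddMonoidHom.mk' (fun x => AddMonoidHom.mk' (fun y => pol c.b (ext0 ι₂ x) (ext0 ι₂ y)) (by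
    intro y y'
    rw [ext0_add, pol_add_right])) (by
    intro x x'
    refine AddMonoidHom.ext fun y => ?_
    change pol c.b (ext0 ι₂ (x + x')) (ext0 ι₂ y) = pol c.b (ext0 ι₂ x) (ext0 ι₂ y) +
      pol c.b (ext0 ι₂ x') (ext0 ι₂ y)
    rw [ext0_add, pol_add_left])

lemma bet_x1 (g h : G) : bet c (x1 c g) (x1 c h) = c.ψ (tt g h) := by
  change pol c.b (ext0 ι₂ (res (c.ξ g))) (ext0 ι₂ (res (c.ξ h))) = _
  rw [pol_res, pol_tt]

lemma bet_zero_iff (g h : G) : bet c (x1 c g) (x1 c h) = 0 ↔ h * g = g * h := by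
  rw [bet_x1]
  constructor
  · intro h1
    exact comm_of_tt (eq_one_of c (xi_tt c g h) h1)
  · intro h1
    rw [tt_of_comm h1, psi_one]

end Grp

section TwoB

variable {K : Type u} [Field K] [CharP K 2] {A : Type v} [Ring A] [Algebra K A]
  {G : Type w} [Group G] {H : Type w'} [Group H] {ι₁ ι₂ κ : Type}
  [Fintype ι₁] [DecidableEq ι₁] [Fintype ι₂]
  (B : GBasis K A G) (C : GBasis K A H) (c : Coord G ι₁ ι₂ κ)

/-- the linear functional extending `su` -/
noncomputable def Lu (u : (ι₁ → ZMod 2) →+ K) : A →ₗ[K] K :=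
  ∑ i : ι₁, u (Pi.single i 1) • ((LinearMap.proj (Sum.inl i)) ∘ₗ Xl B c)

lemma Lu_apply (u : (ι₁ → ZMod 2) →+ K) (a : A) :
    Lu B c u a = ∑ i : ι₁, u (Pi.single i 1) * Xl B c a (Sum.inl i) := by
  simp [Lu, LinearMap.sum_apply]

lemma Lu_C (u : (ι₁ → ZMod 2) →+ K) (h : H) : Lu B c u (C.b h) = su B C c u h := by
  rw [Lu_apply]; rfl

lemma Xl_b (g : G) : Xl B c (B.b g) = cst K (c.ξ g) := by
  simp [Xl, Module.Basis.constr_basis]

lemma Lu_B (u : (ι₁ → ZMod 2) →+ K) (g : G) : Lu B c u (B.b g) = u (x1 c g) := by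
  rw [Lu_apply, Xl_b, add_fun_eq u (x1 c g)]
  rfl

lemma su_inj (u : (ι₁ → ZMod 2) →+ K) (h : ∀ k : H, su B C c u k = 0) : u = 0 := by
  have h1 : Lu B c u = 0 := by
    refine C.b.ext fun k => ?_
    rw [Lu_C, h k]; rfl
  refine AddMonoidHom.ext fun x => ?_
  obtain ⟨g, rfl⟩ := x1_surj c x
  rw [← Lu_B B c, h1]; rfl

lemma su_mul (hXM : S_XM.{u, v, w}) (haug : B.aug = C.aug) (u : (ι₁ → ZMod 2) →+ K) (h k : H) :
    su B C c u (h * k) = su B C c u h + su B C c u k := by
  unfold su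
  rw [← Finset.sum_add_distrib]
  refine Finset.sum_congr rfl fun i _ => ?_
  rw [C.mul, (hXM K A G ι₁ ι₂ κ B c (C.b h) (C.b k)).1, haug, C.aug_b, C.aug_b, one_smul, one_smul,
    Pi.add_apply]
  ring

/-- `su` as a linear map -/
noncomputable def suL : ((ι₁ → ZMod 2) →+ K) →ₗ[K] (H → K) where
  toFun u := su B C c u
  map_add' u u' := by
    funext h
    simp only [su, AddMonoidHom.add_apply, add_mul, Finset.sum_add_distrib, Pi.add_apply]
  map_smul' k u := by
    funext h
    simp only [su, AddMonoidHom.smul_apply, smul_eq_mul, Finset.mul_sum, RingHom.id_apply,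
      Pi.smul_apply, mul_assoc]

lemma suL_apply (u : (ι₁ → ZMod 2) →+ K) (h : H) : suL B C c u h = su B C c u h := rfl

/-- the coordinates modulo the centre -/
noncomputable def YY (h : H) : ι₁ → K := fun i => Xl B c (C.b h) (Sum.inl i)

lemma su_YY (u : (ι₁ → ZMod 2) →+ K) (h : H) :
    su B C c u h = ∑ i, u (Pi.single i 1) * YY B C c h i := rfl

lemma su_crd (i : ι₁) (h : H) : su B C c (crd K i) h = YY B C c h i := by
  rw [su_YY, Finset.sum_eq_single i]
  · have : crd K i (Pi.single i 1) = 1 := by simp [crd]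
    rw [this, one_mul]
  · intro j _ hj
    have : crd K i (Pi.single j 1) = 0 := by
      simp [crd, hj.symm]
    rw [this, zero_mul]
  · simp

lemma YY_mul (hXM : S_XM.{u, v, w}) (haug : B.aug = C.aug) (h k : H) :
    YY B C c (h * k) = YY B C c h + YY B C c k := by
  funext i
  rw [Pi.add_apply, ← su_crd, ← su_crd, ← su_crd]
  exact su_mul B C c hXM haug _ h k

/-- additive version -/
noncomputable def Yh (hXM : S_XM.{u, v, w}) (haug : B.aug = C.aug) : Additive H →+ (ι₁ → K) :=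
  AddMonoidHom.mk' (fun h => YY B C c (Additive.toMul h)) (by
    intro h k
    exact YY_mul B C c hXM haug _ _)

lemma toral_span [Finite G] [DecidableEq ι₂] [Fintype κ] [DecidableEq κ]
    (hXM : S_XM.{u, v, w}) (hCZ : S_CZ.{u, v, w, w'}) (haug : B.aug = C.aug) :
    Submodule.span K {u : (ι₁ → ZMod 2) →+ K | ∀ h, su B C c u h = 0 ∨ su B C c u h = 1} = ⊤ := by
  classical
  obtain ⟨hz1, hz2⟩ := hCZ K A G H ι₁ ι₂ κ B C c haug
  have hfin : Finite H := Finite.of_equiv G (B.b.indexEquiv C.b)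
  have hfin2 : Finite (Additive H) := Finite.of_equiv H Additive.ofMul
  let S : AddSubgroup (ι₁ → K) := (Yh B C c hXM haug).range
  have hSfin : Finite S := by
    have : Finite (Set.range (Yh B C c hXM haug)) := Set.finite_range _
    exact this
  have h2 : ∀ x : S, 2 • x = 0 := by
    intro x
    rw [two_smul]
    apply Subtype.ext
    funext i
    exact CharTwo.add_self_eq_zero _
  let _ : Module (ZMod 2) S := AddCommGroup.zmodModule h2
  have hmf : Module.Finite (ZMod 2) S := Module.Finite.of_finite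
  let bs := Module.Free.chooseBasis (ZMod 2) S
  let J := Module.Free.ChooseBasisIndex (ZMod 2) S
  have hsm : ∀ (a : ZMod 2) (s : S), ((a • s : S) : ι₁ → K) =
      (ZMod.castHom (dvd_refl 2) K a) • (s : ι₁ → K) := by
    intro a s
    rcases cast_cases (K := K) a with ⟨h1, h2⟩ | ⟨h1, h2⟩
    · rw [h2, h1, zero_smul, zero_smul]; rfl
    · rw [h2, h1, one_smul, one_smul]
  have hrep : ∀ s : S, (s : ι₁ → K) =
      ∑ j : J, (ZMod.castHom (dvd_refl 2) K (bs.repr s j)) • ((bs j : S) : ι₁ → K) := by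
    intro s
    conv_lhs => rw [← bs.sum_repr s]
    rw [AddSubgroup.val_finsetSum]
    exact Finset.sum_congr rfl fun j _ => hsm _ _
  let Ys : H → S := fun h => ⟨YY B C c h, ⟨Additive.ofMul h, rfl⟩⟩
  have hYs : ∀ h k, Ys (h * k) = Ys h + Ys k := by
    intro h k
    apply Subtype.ext
    exact YY_mul B C c hXM haug h k
  have hex : ∀ j : J, ∃ u : (ι₁ → ZMod 2) →+ K, ∀ h, su B C c u h =
      ZMod.castHom (dvd_refl 2) K (bs.repr (Ys h) j) := by
    intro j
    refine hz2 (fun h => ZMod.castHom (dvd_refl 2) K (bs.repr (Ys h) j)) ?_ ?_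
    · intro h k
      rw [hYs, map_add, Finsupp.add_apply, map_add]
    · intro h hh
      have : Ys h = 0 := by
        apply Subtype.ext
        funext i
        change YY B C c h i = 0
        rw [← su_crd]
        exact hz1 _ h hh
      rw [this, map_zero, Finsupp.zero_apply, map_zero]
  choose uj huj using hex
  rw [Submodule.eq_top_iff']
  intro u
  let La : J → K := fun j => ∑ i, u (Pi.single i 1) * ((bs j : S) : ι₁ → K) i
  have hu : u = ∑ j : J, La j • uj j := by
    rw [← sub_eq_zero]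
    apply su_inj B C c
    intro k
    have e2 : suL B C c (∑ j : J, La j • uj j) k =
        ∑ j : J, La j * ZMod.castHom (dvd_refl 2) K (bs.repr (Ys k) j) := by
      rw [map_sum, Finset.sum_apply]
      refine Finset.sum_congr rfl fun j _ => ?_
      rw [map_smul, Pi.smul_apply, suL_apply, huj, smul_eq_mul]
    rw [← suL_apply, map_sub, Pi.sub_apply, e2, suL_apply, su_YY, sub_eq_zero]
    have e1 : YY B C c k = ((Ys k : S) : ι₁ → K) := rfl
    rw [e1, hrep (Ys k)]
    simp only [Finset.sum_apply, Pi.smul_apply, smul_eq_mul, Finset.mul_sum, La, Finset.sum_mul]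
    rw [Finset.sum_comm]
    refine Finset.sum_congr rfl fun j _ => Finset.sum_congr rfl fun i _ => ?_
    ring
  rw [hu]
  refine Submodule.sum_mem _ fun j _ => Submodule.smul_mem _ _ (Submodule.subset_span ?_)
  intro h
  rw [huj]
  rcases cast_cases (K := K) (bs.repr (Ys h) j) with ⟨_, h2⟩ | ⟨_, h2⟩
  · left; exact h2
  · right; exact h2

lemma tor_comm (s s' : H → K) (a : A) : C.tor s (C.tor s' a) = C.tor s' (C.tor s a) := by
  have key : C.tor s ∘ₗ C.tor s' = C.tor s' ∘ₗ C.tor s := by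
    refine C.b.ext fun h => ?_
    simp only [LinearMap.comp_apply, GBasis.tor_b, map_smul, smul_smul, mul_comm]
  exact congrArg (fun T => T a) key

lemma tor_idem (s : H → K) (hs : ∀ h, s h = 0 ∨ s h = 1) (a : A) :
    C.tor s (C.tor s a) = C.tor s a := by
  have key : C.tor s ∘ₗ C.tor s = C.tor s := by
    refine C.b.ext fun h => ?_
    simp only [LinearMap.comp_apply, GBasis.tor_b, map_smul, smul_smul]
    rcases hs h with h1 | h1 <;> simp [h1]
  exact congrArg (fun T => T a) key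

lemma pr_surj [Fintype G] (hPR : S_PR.{u, v, w}) (f : (ι₁ → ZMod 2) → K) :
    ∃ a, pr B c a = f := by
  classical
  obtain ⟨-, hp2, -, -, hp5, hp6⟩ := hPR K A G ι₁ ι₂ κ B c
  let prL : A →ₗ[K] ((ι₁ → ZMod 2) → K) :=
    { toFun := pr B c, map_add' := hp5, map_smul' := hp6 }
  choose gg hgg using x1_surj c
  refine ⟨∑ v, f v • B.b (gg v), ?_⟩
  change prL _ = f
  rw [map_sum]
  funext x
  rw [Finset.sum_apply, Finset.sum_eq_single x]
  · rw [map_smul, Pi.smul_apply]
    change f x • pr B c (B.b (gg x)) x = f x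
    rw [hp2, hgg, if_pos rfl, smul_eq_mul, mul_one]
  · intro v _ hv
    rw [map_smul, Pi.smul_apply]
    change f v • pr B c (B.b (gg v)) x = 0
    rw [hp2, hgg, if_neg hv, smul_zero]
  · simp

end TwoB

open Classical in
lemma lam_eq {K V W : Type*} [Field K] [AddCommGroup V] [AddCommGroup W] (β : V →+ V →+ W) (v x : V) :
    lam K β v x = if β v x = 0 then 0 else 1 := rfl

theorem t_TOR (hXM : S_XM.{u, v, w}) (hPR : S_PR.{u, v, w}) (hCZ : S_CZ.{u, v, w, w'})
    (hMU : S_MU.{u, v, w, w'}) (hDB : S_DB.{u, v, w, w'}) (hALG : S_ALG.{u}) (hPHI : S_PHI.{u})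
    (hT3 : S_T3.{u, v, w}) : S_TOR.{u, v, w, w'} := by
  classical
  intro K _ _ A _ _ G _ _ H _ ι₁ ι₂ κ _ _ _ _ _ _ B C c haug
  obtain ⟨μ, hμ⟩ := hMU K A G H ι₁ ι₂ κ B C c haug
  obtain ⟨hD1, h1⟩ := hDB K A G H ι₁ ι₂ κ B C c haug μ hμ
  have hV : ∀ v : ι₁ → ZMod 2, v + v = 0 := fun_add_self
  have hspan := toral_span B C c hXM hCZ haug
  have hcomm : ∀ u u', Db μ u ∘ₗ Db μ u' = Db μ u' ∘ₗ Db μ u := by
    intro u u'
    refine LinearMap.ext fun f => ?_
    obtain ⟨a, rfl⟩ := pr_surj B c hPR f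
    simp only [LinearMap.comp_apply, ← hD1]
    rw [tor_comm]
  have hidem : ∀ u : (ι₁ → ZMod 2) →+ K, (∀ h, su B C c u h = 0 ∨ su B C c u h = 1) →
      Db μ u ∘ₗ Db μ u = Db μ u := by
    intro u hu
    refine LinearMap.ext fun f => ?_
    obtain ⟨a, rfl⟩ := pr_surj B c hPR f
    simp only [LinearMap.comp_apply, ← hD1]
    rw [tor_idem C _ hu]
  obtain ⟨hA1, hA2⟩ := hALG K (ι₁ → ZMod 2) hV μ h1
  have hspan2 : Submodule.span K {u : (ι₁ → ZMod 2) →+ K | Db μ u ∘ₗ Db μ u = Db μ u} = ⊤ := by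
    rw [eq_top_iff, ← hspan]
    exact Submodule.span_mono fun u hu => hidem u hu
  have hφ := hPHI K (ι₁ → ZMod 2) hV μ hcomm hspan2
  refine ⟨{ β := bet c
            q := qd c.b
            p := AddMonoidHom.mk' (fun x => res x) (fun _ _ => rfl)
            hp := ?_
            hV := hV
            hW := fun_add_self
            hV₀ := fun_add_self
            hq := ?_
            nondeg := ?_
            μ := μ
            h1 := h1
            hcomm := hA1 hcomm
            hϖ := hφ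
            hT := ?_ }, ?_, hspan, ?_⟩
  · intro x
    exact ⟨ext0 ι₂ x, rfl⟩
  · intro x y
    rw [qd_add]
    change _ = qd c.b x + qd c.b y + pol c.b (ext0 ι₂ (res x)) (ext0 ι₂ (res y))
    rw [pol_res]
  · intro v hv
    obtain ⟨g, rfl⟩ := x1_surj c v
    rw [← mem_center c, Subgroup.mem_center_iff]
    intro h
    exact (bet_zero_iff c g h).1 (hv (x1 c h))
  · intro v hv u hu
    obtain ⟨k₀, rfl⟩ := x1_surj c v
    have hk₀ : k₀ ∉ Subgroup.center G := fun h => hv ((mem_center c).1 h)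
    have hne : ∃ g, pr B c (B.dl (C.tor (su B C c u)) g) (x1 c k₀) ≠ 0 := by
      by_contra hcon
      push Not at hcon
      apply hu
      refine AddMonoidHom.ext fun x => ?_
      obtain ⟨g, rfl⟩ := x1_surj c x
      rw [hμ, hcon g]; rfl
    have hder : IsDer (C.tor (su B C c u)) := C.isDer_tor _ (su_mul B C c hXM haug u)
    obtain ⟨⟨t₁, ht₁⟩, φ, hφ⟩ := hT3 K A G ι₁ ι₂ κ B c (C.tor (su B C c u)) hder k₀ hk₀ hne
    refine ⟨⟨hv, c.ψ t₁, fun x => ?_⟩, φ, fun x => ?_⟩
    · obtain ⟨g, rfl⟩ := x1_surj c x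
      rw [bet_x1]
      rcases ht₁ g with h | h
      · left
        change tt k₀ g = 1 at h
        rw [h, psi_one]
      · right
        change tt k₀ g = t₁ at h
        rw [h]
    · obtain ⟨g, rfl⟩ := xi_surj c x
      have e : (AddMonoidHom.mk' (fun x : ι₁ ⊕ ι₂ → ZMod 2 => res x) (fun _ _ => rfl)) (c.ξ g) =
          x1 c g := rfl
      rw [e, lam_eq, bet_zero_iff]
      by_cases hc : g * k₀ = k₀ * g
      · rw [if_pos hc, zero_mul]
        exact (hφ g).1 hc
      · rw [if_neg hc, one_mul, hμ]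
        exact (hφ g).2 hc
  · exact ⟨fun x => rfl, fun x i => rfl⟩
  · intro u hu x
    exact hA2 u (hidem u hu) x

end Pool.Agent.Q198.MI2
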