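import Pool.Agent.Q12.MI2.Stm3

set_option autoImplicit false
set_option linter.unusedSectionVars false

/-!
# Project MI2: job T3
-/

namespace Pool.Agent.Q198.MI2

open Finset Polynomial Q21.MI Q12.MI2

universe u v w w'

section Co

variable {G : Type w} [Group G] {ι₁ ι₂ κ : Type} [Fintype ι₁] [Fintype ι₂] (c : Coord G ι₁ ι₂ κ)

lemma xi_one : c.ξ 1 = 0 := by
  have := c.ξ_mul 1 1
  rw [mul_one] at this
  exact left_eq_add.1 this

lemma xi_inv (g : G) : c.ξ g⁻¹ = c.ξ g := by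
  have h := c.ξ_mul g⁻¹ g
  rw [inv_mul_cancel, xi_one] at h
  funext i
  have h2 := congrFun h i
  simp only [Pi.zero_apply, Pi.add_apply] at h2
  have h3 : c.ξ g⁻¹ i = - c.ξ g i := eq_neg_of_add_eq_zero_left h2.symm
  rw [h3, ZMod.neg_eq_self_mod_two]

lemma xi_sq (g : G) : c.ξ (g * g) = 0 := by
  rw [c.ξ_mul]
  funext i
  exact CharTwo.add_self_eq_zero _

lemma x1_mul (g h : G) : x1 c (g * h) = x1 c g + x1 c h := by
  funext i
  simp only [x1, c.ξ_mul, Pi.add_apply]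

lemma mem_center {g : G} : g ∈ Subgroup.center G ↔ x1 c g = 0 := by
  rw [c.center]
  constructor
  · intro h; funext i; exact h i
  · intro h i; exact congrFun h i

lemma center_of_xi {g : G} (h : c.ξ g = 0) : g ∈ Subgroup.center G := by
  rw [c.center]; intro i; rw [h]; rfl

lemma bil_zero_left {ι κ R : Type*} [Fintype ι] [CommRing R] (b : ι → ι → κ → ℤ) (x : ι → R) :
    bil b 0 x = 0 := by
  funext k; simp [bil]

lemma psi_mul {s : G} (hs : c.ξ s = 0) (z : G) : c.ψ (s * z) = c.ψ s + c.ψ z := by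
  rw [c.ψ_mul, hs, bil_zero_left, add_zero]

lemma psi_one : c.ψ 1 = 0 := by
  have := psi_mul c (xi_one c) 1
  rw [mul_one] at this
  exact left_eq_add.1 this

lemma psi_sq (g : G) : c.ψ (g * g) = qd c.b (c.ξ g) := by
  rw [c.ψ_mul]
  funext k
  simp only [Pi.add_apply, qd]
  rw [CharTwo.add_self_eq_zero, zero_add]

lemma eq_one_of {g : G} (h1 : c.ξ g = 0) (h2 : c.ψ g = 0) : g = 1 := by
  apply c.bij.1
  simp only [h1, h2, xi_one, psi_one]

/-- the commutator with `k₀` -/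
def tt (k₀ g : G) : G := k₀⁻¹ * g⁻¹ * k₀ * g

lemma xi_tt (k₀ g : G) : c.ξ (tt k₀ g) = 0 := by
  unfold tt
  rw [c.ξ_mul, c.ξ_mul, c.ξ_mul, xi_inv, xi_inv]
  have : ∀ x y : ι₁ ⊕ ι₂ → ZMod 2, x + y + x + y = 0 := by
    intro x y
    funext i
    simp only [Pi.add_apply, Pi.zero_apply]
    have h1 := CharTwo.add_self_eq_zero (x i)
    have h2 := CharTwo.add_self_eq_zero (y i)
    linear_combination h1 + h2
  exact this _ _

include c in
lemma tt_center (k₀ g : G) : tt k₀ g ∈ Subgroup.center G := center_of_xi c (xi_tt c k₀ g)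

include c in
lemma tt_mul (k₀ g h : G) : tt k₀ (g * h) = tt k₀ g * tt k₀ h := by
  have hc := Subgroup.mem_center_iff.1 (tt_center c k₀ g)
  have e : tt k₀ (g * h) = k₀⁻¹ * h⁻¹ * k₀ * tt k₀ g * h := by
    unfold tt; group
  rw [e, hc (k₀⁻¹ * h⁻¹ * k₀), mul_assoc]
  unfold tt; group

lemma tt_of_comm {k₀ g : G} (h : g * k₀ = k₀ * g) : tt k₀ g = 1 := by
  unfold tt
  have : k₀ * g = g * k₀ := h.symm
  calc k₀⁻¹ * g⁻¹ * k₀ * g = k₀⁻¹ * g⁻¹ * (k₀ * g) := by group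
    _ = 1 := by rw [this]; group

lemma comm_of_tt {k₀ g : G} (h : tt k₀ g = 1) : g * k₀ = k₀ * g := by
  unfold tt at h
  calc g * k₀ = g * k₀ * (k₀⁻¹ * g⁻¹ * k₀ * g) := by rw [h, mul_one]
    _ = k₀ * g := by group

lemma tt_center_arg {k₀ y : G} (hy : y ∈ Subgroup.center G) : tt k₀ y = 1 :=
  tt_of_comm ((Subgroup.mem_center_iff.1 hy k₀).symm)

include c in
lemma tt_sq (k₀ g : G) : tt k₀ g * tt k₀ g = 1 := by
  rw [← tt_mul c, tt_center_arg (center_of_xi c (xi_sq c g))]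

end Co

section Main

variable {K : Type u} [Field K] [CharP K 2] {A : Type v} [Ring A] [Algebra K A]
  {G : Type w} [Group G] [Fintype G] {ι₁ ι₂ κ : Type} [Fintype ι₁] [Fintype ι₂]
  (B : GBasis K A G) (c : Coord G ι₁ ι₂ κ) (D : A →ₗ[K] A) (hD : IsDer D) (k₀ : G)

/-- the coefficients -/
noncomputable def aa (g z : G) : K := B.b.repr (B.dl D g) (k₀ * z)

include hD in
lemma aa_mul (g h : G) {z : G} (hz : z ∈ Subgroup.center G) :
    aa B D k₀ (g * h) z = aa B D k₀ g z + aa B D k₀ h (tt k₀ g * z) := by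
  unfold aa
  rw [B.dl_mul hD, map_add, Finsupp.add_apply, B.repr_conj]
  congr 2
  have h1 := Subgroup.mem_center_iff.1 hz
  have e1 : g⁻¹ * (k₀ * z) * g = g⁻¹ * k₀ * (z * g) := by group
  have e2 : k₀ * (tt k₀ g * z) = g⁻¹ * k₀ * (g * z) := by unfold tt; group
  rw [e1, e2, h1 g]

include hD in
lemma aa_inv {y : G} (hy : y ∈ Subgroup.center G) (g : G) {z : G} (hz : z ∈ Subgroup.center G) :
    aa B D k₀ y (tt k₀ g * z) = aa B D k₀ y z := by
  have h1 := aa_mul B D hD k₀ g y hz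
  have h2 := aa_mul B D hD k₀ y g hz
  rw [tt_center_arg hy, one_mul, ← Subgroup.mem_center_iff.1 hy g, h1, add_comm] at h2
  exact add_right_cancel h2

open Classical in
/-- the centre -/
noncomputable def Zf (G : Type w) [Group G] [Fintype G] : Finset G :=
  univ.filter (fun z => z ∈ Subgroup.center G)

open Classical in
/-- the half of the centre -/
noncomputable def Zh (c : Coord G ι₁ ι₂ κ) (k : κ) : Finset G :=
  (Zf G).filter (fun z => c.ψ z k = 0)

lemma mem_Zf {z : G} : z ∈ Zf G ↔ z ∈ Subgroup.center G := by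
  classical
  simp [Zf]

lemma mem_Zh {z : G} {k : κ} : z ∈ Zh c k ↔ z ∈ Subgroup.center G ∧ c.ψ z k = 0 := by
  classical
  simp [Zh, mem_Zf]

lemma zmod2 (x : ZMod 2) : x = 0 ∨ x = 1 := by
  revert x; decide

lemma half_sum {t : G} (ht : c.ξ t = 0) (htt : t * t = 1) {k : κ} (hk : c.ψ t k = 1) (f : G → K) :
    ∑ z ∈ Zf G, f z = ∑ z ∈ Zh c k, (f z + f (t * z)) := by
  classical
  rw [Finset.sum_add_distrib, ← Finset.sum_filter_add_sum_filter_not (Zf G) (fun z => c.ψ z k = 0)]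
  congr 1
  have htc := center_of_xi c ht
  refine Finset.sum_bij' (fun z _ => t * z) (fun z _ => t * z) ?_ ?_ ?_ ?_ ?_
  · intro z hz
    rw [Finset.mem_filter, mem_Zf] at hz
    rw [mem_Zh]
    refine ⟨Subgroup.mul_mem _ htc hz.1, ?_⟩
    rw [psi_mul c ht, Pi.add_apply, hk]
    rcases zmod2 (c.ψ z k) with h | h
    · exact absurd h hz.2
    · rw [h]; decide
  · intro z hz
    rw [mem_Zh] at hz
    rw [Finset.mem_filter, mem_Zf]
    refine ⟨Subgroup.mul_mem _ htc hz.1, ?_⟩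
    rw [psi_mul c ht, Pi.add_apply, hk, hz.2]
    decide
  · intro z _
    rw [← mul_assoc, htt, one_mul]
  · intro z _
    rw [← mul_assoc, htt, one_mul]
  · intro z _
    rw [← mul_assoc, htt, one_mul]

lemma half_zero {s : G} (hs : c.ξ s = 0) (hss : s * s = 1) (hs1 : s ≠ 1) {k : κ} (hk : c.ψ s k = 0)
    (f : G → K) (hf : ∀ z ∈ Subgroup.center G, f (s * z) = f z) : ∑ z ∈ Zh c k, f z = 0 := by
  classical
  have hsc := center_of_xi c hs
  refine Finset.sum_involution (fun z _ => s * z) ?_ ?_ ?_ ?_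
  · intro z hz
    rw [mem_Zh] at hz
    rw [hf z hz.1]
    exact CharTwo.add_self_eq_zero _
  · intro z _ _ h
    exact hs1 (mul_eq_right.1 h)
  · intro z hz
    rw [mem_Zh] at hz ⊢
    refine ⟨Subgroup.mul_mem _ hsc hz.1, ?_⟩
    rw [psi_mul c hs, Pi.add_apply, hk, hz.2, add_zero]
  · intro z _
    rw [← mul_assoc, hss, one_mul]

lemma exists_coord {t : G} (ht : c.ξ t = 0) (h1 : t ≠ 1) : ∃ k, c.ψ t k = 1 := by
  by_contra hcon
  push Not at hcon
  apply h1
  apply eq_one_of c ht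
  funext k
  rcases zmod2 (c.ψ t k) with h | h
  · exact h
  · exact absurd h (hcon k)

include c hD in
/-- the sum over half of the centre, squares -/
lemma half_sq (g : G) (k : κ) : ∑ z ∈ Zh c k, aa B D k₀ (g * g) z =
    ∑ z ∈ Zh c k, (aa B D k₀ g z + aa B D k₀ g (tt k₀ g * z)) := by
  refine Finset.sum_congr rfl fun z hz => ?_
  rw [mem_Zh] at hz
  exact aa_mul B D hD k₀ g g hz.1

include c hD in
/-- two different commutators force vanishing -/
lemma two_comm (g g' : G) (h1 : tt k₀ g ≠ 1) (h2 : tt k₀ g' ≠ 1) (h3 : tt k₀ g' ≠ tt k₀ g) :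
    ∑ z ∈ Zf G, aa B D k₀ g z = 0 := by
  obtain ⟨k, hk⟩ := exists_coord c (xi_tt c k₀ g) h1
  rw [half_sum c (xi_tt c k₀ g) (tt_sq c k₀ g) hk, ← half_sq B c D hD k₀ g k]
  have hgg : g * g ∈ Subgroup.center G := center_of_xi c (xi_sq c g)
  rcases zmod2 (c.ψ (tt k₀ g') k) with h | h
  · refine half_zero c (xi_tt c k₀ g') (tt_sq c k₀ g') h2 h _ fun z hz => ?_
    exact aa_inv B D hD k₀ hgg g' hz
  · have e : tt k₀ (g * g') = tt k₀ g * tt k₀ g' := tt_mul c k₀ g g'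
    refine half_zero c (xi_tt c k₀ (g * g')) (tt_sq c k₀ (g * g')) ?_ ?_ _ fun z hz => ?_
    · rw [e]
      intro h4
      apply h3
      have h5 := tt_sq c k₀ g
      exact mul_left_cancel (h4.trans h5.symm)
    · rw [e, psi_mul c (xi_tt c k₀ g), Pi.add_apply, hk, h]
      decide
    · exact aa_inv B D hD k₀ hgg (g * g') hz

lemma pr_sum (g : G) : pr B c (B.dl D g) (x1 c k₀) = ∑ z ∈ Zf G, aa B D k₀ g z := by
  classical
  unfold pr aa
  rw [← Finset.sum_filter]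
  symm
  refine Finset.sum_bij' (fun z _ => k₀ * z) (fun k _ => k₀⁻¹ * k) ?_ ?_ ?_ ?_ ?_
  · intro z hz
    rw [mem_Zf, mem_center c] at hz
    rw [Finset.mem_filter]
    refine ⟨Finset.mem_univ _, ?_⟩
    rw [x1_mul, hz, add_zero]
  · intro k hk
    rw [Finset.mem_filter] at hk
    rw [mem_Zf, mem_center c, x1_mul, hk.2]
    funext i
    have := xi_inv c k₀
    simp only [x1, this, Pi.add_apply, Pi.zero_apply]
    exact CharTwo.add_self_eq_zero _
  · intro z _; group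
  · intro z _; group
  · intro z _; rfl

end Main

theorem t_T3 (hPR : S_PR.{u, v, w}) : S_T3.{u, v, w} := by
  classical
  intro K _ _ A _ _ G _ _ ι₁ ι₂ κ _ _ _ _ _ _ B c D hD k₀ hk₀ hne
  obtain ⟨-, -, -, hp4, hp5, -⟩ := hPR K A G ι₁ ι₂ κ B c
  -- additivity
  have hadd : ∀ g h, pr B c (B.dl D (g * h)) (x1 c k₀) =
      pr B c (B.dl D g) (x1 c k₀) + pr B c (B.dl D h) (x1 c k₀) := by
    intro g h
    rw [B.dl_mul hD, hp5, hp4 _ _ _ (B.mul_inv g)]
    rfl
  obtain ⟨g₀, hg₀⟩ : ∃ g₀, tt k₀ g₀ ≠ 1 := by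
    by_contra hcon
    push Not at hcon
    apply hk₀
    rw [Subgroup.mem_center_iff]
    intro g
    exact comm_of_tt (hcon g)
  have hT : ∀ g, tt k₀ g = 1 ∨ tt k₀ g = tt k₀ g₀ := by
    by_contra hcon
    push Not at hcon
    obtain ⟨g₁, h1, h2⟩ := hcon
    have hz : ∀ g, tt k₀ g ≠ 1 → pr B c (B.dl D g) (x1 c k₀) = 0 := by
      intro g hg
      rw [pr_sum]
      by_cases h : tt k₀ g = tt k₀ g₀
      · exact two_comm B c D hD k₀ g g₁ hg h1 (by rw [h]; exact h2)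
      · exact two_comm B c D hD k₀ g g₀ hg hg₀ (fun h' => h h'.symm)
    obtain ⟨g, hg⟩ := hne
    apply hg
    by_cases h : tt k₀ g = 1
    · have h3 := hadd g g₀
      have h4 : tt k₀ (g * g₀) ≠ 1 := by
        rw [tt_mul c, h, one_mul]; exact hg₀
      rw [hz _ h4, hz _ hg₀, add_zero] at h3
      exact h3.symm
    · exact hz g h
  refine ⟨⟨tt k₀ g₀, hT⟩, ?_⟩
  obtain ⟨k, hk⟩ := exists_coord c (xi_tt c k₀ g₀) hg₀
  let e := Equiv.ofBijective _ c.bij
  let y : (κ → ZMod 2) → G := fun w => e.symm (0, w)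
  have hy : ∀ w, c.ξ (y w) = 0 ∧ c.ψ (y w) = w := by
    intro w
    have := e.apply_symm_apply (0, w)
    exact ⟨congrArg Prod.fst this, congrArg Prod.snd this⟩
  have hyu : ∀ g w, c.ξ g = 0 → c.ψ g = w → y w = g := by
    intro g w h1 h2
    apply c.bij.1
    simp only [(hy w).1, (hy w).2, h1, h2]
  have hyadd : ∀ w w', y (w + w') = y w * y w' := by
    intro w w'
    apply hyu
    · rw [c.ξ_mul, (hy w).1, (hy w').1, add_zero]
    · rw [psi_mul c (hy w).1, (hy w).2, (hy w').2]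
  let φ : (κ → ZMod 2) →+ K := AddMonoidHom.mk' (fun w => ∑ z ∈ Zh c k, aa B D k₀ (y w) z) (by
    intro w w'
    rw [← Finset.sum_add_distrib]
    refine Finset.sum_congr rfl fun z hz => ?_
    rw [mem_Zh] at hz
    rw [hyadd, aa_mul B D hD k₀ _ _ hz.1, tt_center_arg (center_of_xi c (hy w).1), one_mul])
  have hφ : ∀ g, φ (qd c.b (c.ξ g)) = ∑ z ∈ Zh c k, (aa B D k₀ g z + aa B D k₀ g (tt k₀ g * z)) := by
    intro g
    rw [← half_sq B c D hD k₀ g k]
    change ∑ z ∈ Zh c k, aa B D k₀ (y (qd c.b (c.ξ g))) z = _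
    rw [hyu (g * g) _ (xi_sq c g) (psi_sq c g)]
  refine ⟨φ, fun g => ⟨fun h => ?_, fun h => ?_⟩⟩
  · rw [hφ, tt_of_comm h]
    refine Finset.sum_eq_zero fun z _ => ?_
    rw [one_mul]
    exact CharTwo.add_self_eq_zero _
  · have h1 : tt k₀ g ≠ 1 := fun h' => h (comm_of_tt h')
    have h2 := (hT g).resolve_left h1
    rw [hφ, pr_sum, h2, ← half_sum c (xi_tt c k₀ g₀) (tt_sq c k₀ g₀) hk]

end Pool.Agent.Q198.MI2
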